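import Pool.Agent.X50.GL.Code

/-!
# Perfect cones spanned by `g` independent rank-one forms need not be basic

MP_aa1cdf_co, Q1: the answer is no for every `g ≥ 21`.

Let `C ⊂ F_2^21` be the binary Golay code of length 24 punctured at three coordinates; it has
minimum distance `5` and contains its dual.  The lattice `L ⊂ ℝ^g` of all `x ∈ (1/2) ℤ^g` whose
first 21 doubled coordinates reduce to a word of `C` and whose other coordinates are integers has
the shortest vectors `± e_i`, `i ≤ g`, which are independent.  Since `C` contains its dual, the form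
`(1/2) ∑ p(e_i)` is integral on the dual of `L`, so the `p(e_i)` do not extend to a basis of
`Sym²(L)`.  We write this down in coordinates, `L = ℤ^g`.
-/

set_option autoImplicit false
open Finset Matrix

namespace Pool.Agent.Results.MP_aa1cdf_co.GolayLattice

/-- The rank-one matrix `p(v) = v vᵀ`. -/
def p {g : ℕ} (v : Fin g → ℤ) : Matrix (Fin g) (Fin g) ℤ := Matrix.vecMulVec v v

/-- The lattice `Sym²(ℤ^g)` of integral symmetric matrices. -/
def Sym2 (g : ℕ) : Submodule ℤ (Matrix (Fin g) (Fin g) ℤ) where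
  carrier := {M | Mᵀ = M}
  add_mem' := by
    intro a b ha hb
    simp only [Set.mem_ofPred_eq] at *
    rw [Matrix.transpose_add, ha, hb]
  zero_mem' := by simp
  smul_mem' := by
    intro c a ha
    simp only [Set.mem_ofPred_eq] at *
    rw [Matrix.transpose_smul, ha]

/-- The value `vᵀ Q v` of the quadratic form `Q` at an integer vector. -/
def val {g : ℕ} (Q : Matrix (Fin g) (Fin g) ℝ) (v : Fin g → ℤ) : ℝ :=
  (fun i => (v i : ℝ)) ⬝ᵥ Q *ᵥ (fun i => (v i : ℝ))

/-- `Min(Q)`: the nonzero integer vectors at which `Q` attains its minimum over the nonzero integer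
vectors. -/
def Min {g : ℕ} (Q : Matrix (Fin g) (Fin g) ℝ) : Set (Fin g → ℤ) :=
  {v | v ≠ 0 ∧ ∀ w : Fin g → ℤ, w ≠ 0 → val Q v ≤ val Q w}

/-- `{p(v_1), …, p(v_g)}` generates a perfect cone: `Min(Q) = {± v_1, …, ± v_g}` for a positive
definite `Q`. -/
def GeneratesPerfectCone {g : ℕ} (v : Fin g → Fin g → ℤ) : Prop :=
  ∃ Q : Matrix (Fin g) (Fin g) ℝ, Q.PosDef ∧ Min Q = {w | ∃ i, w = v i ∨ w = -v i}

/-- The matrices `p(v_1), …, p(v_g)` can be extended to a `ℤ`-basis of `Sym²(ℤ^g)`. -/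
def ExtendsToBasis {g : ℕ} (v : Fin g → Fin g → ℤ) : Prop :=
  ∃ (ι : Type) (b : Module.Basis ι ℤ (Sym2 g)), ∀ i, ∃ j, (b j : Matrix (Fin g) (Fin g) ℤ) = p (v i)

open Pool.Agent.X50.GL

/-- Extension of a vector by zero. -/
def E {R : Type*} [CommRing R] {g : ℕ} (y : Fin g → R) (l : ℕ) : R :=
  if h : l < g then y ⟨l, h⟩ else 0

theorem E_val {R : Type*} [CommRing R] {g : ℕ} (y : Fin g → R) (l : Fin g) : E y l = y l := by
  simp [E]

/-- The matrix of `Z`. -/
def T (R : Type*) [CommRing R] (g : ℕ) : Matrix (Fin g) (Fin g) R := fun l i =>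
  (if (l : ℕ) < 12 then 1 else 2) * (if l = i then 1 else 0) + ((A i l : ℤ) : R)

theorem sum_A {R : Type*} [CommRing R] {g : ℕ} (hg : 12 ≤ g) (y : Fin g → R) (l : ℕ) :
    ∑ i : Fin g, ((A i l : ℤ) : R) * y i = ∑ i ∈ range 12, ((A i l : ℤ) : R) * E y i := by
  have h1 : ∑ i : Fin g, ((A i l : ℤ) : R) * y i =
      ∑ i ∈ range g, ((A i l : ℤ) : R) * E y i := by
    rw [Finset.sum_range]
    refine sum_congr rfl fun i _ => ?_
    rw [E_val]
  rw [h1]
  symm
  refine sum_subset (range_mono hg) fun i _ hi => ?_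
  rw [A_row (by simpa using hi)]
  simp

theorem T_mulVec {R : Type*} [CommRing R] {g : ℕ} (hg : 12 ≤ g) (y : Fin g → R) (l : Fin g) :
    (T R g *ᵥ y) l = Z (E y) l := by
  unfold Matrix.mulVec dotProduct T Z
  simp only [add_mul, sum_add_distrib]
  congr 1
  · rw [E_val]
    simp
  · exact sum_A hg y l

theorem Z_small {R : Type*} [CommRing R] (Y : ℕ → R) {l : ℕ} (hl : l < 12) : Z Y l = Y l := by
  simp [Z, hl, A_small hl]

theorem Z_big {R : Type*} [CommRing R] (Y : ℕ → R) {l : ℕ} (hl : 21 ≤ l) : Z Y l = 2 * Y l := by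
  have h12 : ¬ l < 12 := by omega
  unfold Z
  rw [if_neg h12, sum_eq_zero, add_zero]
  intro i hi
  rw [A_big hl (by simpa using hi)]
  simp

/-- The shortest vectors. -/
def vv (g : ℕ) (k : Fin g) : Fin g → ℤ := fun l =>
  (if (l : ℕ) < 12 then 2 else 1) * (if l = k then 1 else 0) - A k l

theorem T_inj {R : Type*} [CommRing R] [IsDomain R] [CharZero R] {g : ℕ} (hg : 12 ≤ g)
    (y : Fin g → R) (hy : T R g *ᵥ y = 0) : y = 0 := by
  have hs : ∀ l : Fin g, (l : ℕ) < 12 → y l = 0 := by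
    intro l hl
    have := congrFun hy l
    rw [T_mulVec hg, Z_small _ hl, E_val] at this
    simpa using this
  have hE : ∀ i ∈ range 12, E y i = 0 := by
    intro i hi
    have hi' : i < 12 := by simpa using hi
    have : i < g := by omega
    rw [show i = ((⟨i, this⟩ : Fin g) : ℕ) from rfl, E_val]
    exact hs _ hi'
  funext l
  by_cases hl : (l : ℕ) < 12
  · exact hs l hl
  · have := congrFun hy l
    rw [T_mulVec hg] at this
    unfold Z at this
    rw [if_neg hl, E_val, sum_eq_zero (fun i hi => by rw [hE i hi, mul_zero])] at this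
    simpa using this

/-- `T v_k = 2 e_k`. -/
theorem T_vv {g : ℕ} (hg : 12 ≤ g) (k l : Fin g) :
    (T ℤ g *ᵥ vv g k) l = if l = k then 2 else 0 := by
  rw [T_mulVec hg]
  have hsm : ∀ i : Fin g, (i : ℕ) < 12 → vv g k i = if i = k then 2 else 0 := by
    intro i hi
    simp [vv, hi, A_small hi]
  by_cases hl : (l : ℕ) < 12
  · rw [Z_small _ hl, E_val, hsm l hl]
  · unfold Z
    rw [if_neg hl, E_val]
    simp only [Int.cast_id]
    have hsum : ∑ i ∈ range 12, A i l * E (vv g k) i =
        2 * A k l := by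
      have h1 : ∀ i ∈ range 12, A i l * E (vv g k) i =
          if i = (k : ℕ) then 2 * A k l else 0 := by
        intro i hi
        have hi' : i < 12 := by simpa using hi
        have hig : i < g := by omega
        have : E (vv g k) i = if (⟨i, hig⟩ : Fin g) = k then 2 else 0 :=
          (E_val (vv g k) ⟨i, hig⟩).trans (hsm ⟨i, hig⟩ hi')
        rw [this]
        by_cases hik : i = (k : ℕ)
        · rw [if_pos hik, if_pos (Fin.ext hik), hik]
          simp [mul_comm]
        · rw [if_neg hik, if_neg (fun h => hik (congrArg Fin.val h)), mul_zero]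
      rw [sum_congr rfl h1]
      by_cases hk : (k : ℕ) < 12
      · rw [sum_ite_eq' (range 12) (k : ℕ) (fun _ => 2 * A k l), if_pos (mem_range.2 hk)]
      · rw [A_row (by omega : 12 ≤ (k : ℕ))]
        simp
    rw [hsum]
    simp only [vv, if_neg hl]
    split_ifs <;> ring

theorem val_eq {g : ℕ} (w : Fin g → ℤ) :
    val ((T ℝ g)ᴴ * T ℝ g) w = ((∑ l : Fin g, ((T ℤ g *ᵥ w) l) ^ 2 : ℤ) : ℝ) := by
  have h1 : T ℝ g *ᵥ (fun i => (w i : ℝ)) = fun l => (((T ℤ g *ᵥ w) l : ℤ) : ℝ) := by
    funext l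
    unfold Matrix.mulVec dotProduct T
    push_cast
    rfl
  unfold val
  rw [← Matrix.mulVec_mulVec, Matrix.dotProduct_mulVec, Matrix.vecMul_conjTranspose]
  rw [star_trivial, star_trivial, h1]
  unfold dotProduct
  push_cast
  exact sum_congr rfl fun l _ => (sq _).symm

theorem even_or {g : ℕ} (hg : 21 ≤ g) (w : Fin g → ℤ) :
    5 ≤ ∑ l : Fin g, ((T ℤ g *ᵥ w) l) ^ 2 ∨ ∃ u : Fin g → ℤ, T ℤ g *ᵥ w = 2 • u := by
  by_cases h : ∃ i < 12, E w i % 2 = 1
  · left
    have h5 := five_le (E w) h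
    refine h5.trans ?_
    have h1 : ∑ l : Fin g, ((T ℤ g *ᵥ w) l) ^ 2 = ∑ l ∈ range g, (Z (E w) l) ^ 2 := by
      rw [Finset.sum_range]
      exact sum_congr rfl fun l _ => by rw [T_mulVec (by omega)]
    rw [h1]
    exact sum_le_sum_of_subset_of_nonneg (range_mono hg) fun i _ _ => sq_nonneg _
  · right
    have heven : ∀ i < 12, (2 : ℤ) ∣ E w i := by
      intro i hi
      have := Int.emod_two_eq_zero_or_one (E w i)
      rcases this with h0 | h1
      · exact Int.dvd_of_emod_eq_zero h0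
      · exact absurd ⟨i, hi, h1⟩ h
    have hdiv : ∀ l : Fin g, (2 : ℤ) ∣ (T ℤ g *ᵥ w) l := by
      intro l
      rw [T_mulVec (by omega)]
      by_cases hl : (l : ℕ) < 12
      · rw [Z_small _ hl]; exact heven _ hl
      · unfold Z
        rw [if_neg hl]
        refine dvd_add (Dvd.intro _ rfl) (dvd_sum fun i hi => ?_)
        exact Dvd.dvd.mul_left (heven i (by simpa using hi)) _
    choose u hu using hdiv
    exact ⟨u, funext fun l => by rw [hu l]; simp⟩

theorem min_eq {g : ℕ} (hg : 21 ≤ g) :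
    Min ((T ℝ g)ᴴ * T ℝ g) = {w | ∃ i, w = vv g i ∨ w = -vv g i} := by
  have hg' : 12 ≤ g := by omega
  have hvv : ∀ k : Fin g, ∑ l : Fin g, ((T ℤ g *ᵥ vv g k) l) ^ 2 = 4 := by
    intro k
    rw [sum_congr rfl (fun l _ => by rw [T_vv hg' k l])]
    simp [ite_pow]
  have hneg : ∀ w : Fin g → ℤ, ∑ l : Fin g, ((T ℤ g *ᵥ (-w)) l) ^ 2 =
      ∑ l : Fin g, ((T ℤ g *ᵥ w) l) ^ 2 := by
    intro w
    refine sum_congr rfl fun l _ => ?_
    rw [Matrix.mulVec_neg]
    simp
  have hvne : ∀ k : Fin g, vv g k ≠ 0 := by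
    intro k h0
    have := hvv k
    rw [h0] at this
    simp at this
  -- lower bound and equality
  have hlow : ∀ w : Fin g → ℤ, w ≠ 0 → 4 ≤ ∑ l : Fin g, ((T ℤ g *ᵥ w) l) ^ 2 ∧
      (∑ l : Fin g, ((T ℤ g *ᵥ w) l) ^ 2 ≤ 4 → ∃ i, w = vv g i ∨ w = -vv g i) := by
    intro w hw
    rcases even_or hg w with h5 | ⟨u, hu⟩
    · exact ⟨by omega, fun h => by omega⟩
    · have hu0 : u ≠ 0 := by
        rintro rfl
        exact hw (T_inj hg' w (by rw [hu]; simp))
      obtain ⟨k, hk⟩ := Function.ne_iff.1 hu0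
      simp only [Pi.zero_apply] at hk
      have hsq : ∀ l, ((T ℤ g *ᵥ w) l) ^ 2 = 4 * (u l) ^ 2 := by
        intro l
        rw [hu]
        simp only [Pi.smul_apply, nsmul_eq_mul]
        push_cast
        ring
      have hsum : ∑ l : Fin g, ((T ℤ g *ᵥ w) l) ^ 2 = 4 * (∑ l : Fin g, (u l) ^ 2) := by
        rw [mul_sum]
        exact sum_congr rfl fun l _ => hsq l
      have hk1 : 1 ≤ (u k) ^ 2 := by
        have := sq_pos_of_ne_zero hk
        omega
      have hsplit : ∑ l : Fin g, (u l) ^ 2 = (u k) ^ 2 + ∑ l ∈ univ.erase k, (u l) ^ 2 :=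
        (add_sum_erase univ (fun l => (u l) ^ 2) (mem_univ k)).symm
      have hrest : 0 ≤ ∑ l ∈ univ.erase k, (u l) ^ 2 := sum_nonneg fun _ _ => sq_nonneg _
      refine ⟨by rw [hsum, hsplit]; linarith, fun hle => ?_⟩
      rw [hsum, hsplit] at hle
      have hkeq : (u k) ^ 2 = 1 := by linarith
      have hr0 : ∑ l ∈ univ.erase k, (u l) ^ 2 = 0 := by linarith
      have hz : ∀ l, l ≠ k → u l = 0 := by
        intro l hl
        have := (sum_eq_zero_iff_of_nonneg (fun i _ => sq_nonneg (u i))).1 hr0 l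
          (mem_erase.2 ⟨hl, mem_univ _⟩)
        exact pow_eq_zero_iff (two_ne_zero) |>.1 this
      refine ⟨k, ?_⟩
      have hkk : u k = 1 ∨ u k = -1 := by
        have h0 : (u k - 1) * (u k + 1) = 0 := by linarith [sq (u k)]
        rcases mul_eq_zero.1 h0 with h | h
        · left; omega
        · right; omega
      rcases hkk with h1 | h1
      · left
        have hd : T ℤ g *ᵥ (w - vv g k) = 0 := by
          funext l
          rw [Matrix.mulVec_sub, hu]
          simp only [Pi.sub_apply, Pi.smul_apply, Pi.zero_apply]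
          rw [T_vv hg']
          by_cases hl : l = k
          · rw [if_pos hl, hl, h1]; norm_num
          · rw [if_neg hl, hz l hl]; norm_num
        exact sub_eq_zero.1 (T_inj hg' _ hd)
      · right
        have hd : T ℤ g *ᵥ (w + vv g k) = 0 := by
          funext l
          rw [Matrix.mulVec_add, hu]
          simp only [Pi.add_apply, Pi.smul_apply, Pi.zero_apply]
          rw [T_vv hg']
          by_cases hl : l = k
          · rw [if_pos hl, hl, h1]; norm_num
          · rw [if_neg hl, hz l hl]; norm_num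
        exact eq_neg_of_add_eq_zero_left (T_inj hg' _ hd)
  ext w
  constructor
  · rintro ⟨hw0, hmin⟩
    have hk : (⟨0, by omega⟩ : Fin g) = ⟨0, by omega⟩ := rfl
    have h := hmin (vv g ⟨0, by omega⟩) (hvne _)
    rw [val_eq, val_eq, hvv] at h
    exact (hlow w hw0).2 (by exact_mod_cast h)
  · rintro ⟨k, hk⟩
    have hval : ∑ l : Fin g, ((T ℤ g *ᵥ w) l) ^ 2 = 4 := by
      rcases hk with rfl | rfl
      · exact hvv k
      · rw [hneg]; exact hvv k
    refine ⟨?_, fun x hx => ?_⟩
    · rcases hk with rfl | rfl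
      · exact hvne k
      · exact neg_ne_zero.2 (hvne k)
    · rw [val_eq, val_eq, hval]
      exact_mod_cast (hlow x hx).1

theorem indep {g : ℕ} (hg : 21 ≤ g) : LinearIndependent ℤ (vv g) := by
  rw [Fintype.linearIndependent_iff]
  intro c hc k
  have h1 : (T ℤ g *ᵥ (∑ i, c i • vv g i)) k = 2 * c k := by
    rw [Matrix.mulVec_sum, Finset.sum_apply]
    rw [sum_congr rfl (fun i _ => by
      rw [Matrix.mulVec_smul, Pi.smul_apply, T_vv (by omega) i k])]
    simp [mul_comm]
  rw [hc, Matrix.mulVec_zero, Pi.zero_apply] at h1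
  omega

/-- The inner products modulo 2. -/
theorem cols : ∀ a < 9, ∀ b < 9, (∑ k ∈ range 21, ((if 12 + a = k then 1 else 0) - A k (12 + a)) *
    ((if 12 + b = k then 1 else 0) - A k (12 + b))) % 2 = 0 := by
  decide +kernel

theorem sum_even {g : ℕ} (hg : 21 ≤ g) (l m : Fin g) :
    (2 : ℤ) ∣ ∑ k : Fin g, if (k : ℕ) < 21 then vv g k l * vv g k m else 0 := by
  have hsm : ∀ l : Fin g, (l : ℕ) < 12 → ∀ k : Fin g, (2 : ℤ) ∣ vv g k l := by
    intro l hl k
    simp only [vv, hl, if_true, A_small hl, sub_zero]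
    exact Dvd.intro _ rfl
  have hbg : ∀ l : Fin g, 21 ≤ (l : ℕ) → ∀ k : Fin g, (k : ℕ) < 21 → vv g k l = 0 := by
    intro l hl k hk
    have hlk : l ≠ k := by rintro rfl; omega
    have hA : A k l = 0 := by
      by_cases h : (k : ℕ) < 12
      · exact A_big hl h
      · exact A_row (by omega)
    simp [vv, hlk, hA]
  by_cases hl : (l : ℕ) < 12
  · refine dvd_sum fun k _ => ?_
    split_ifs
    · exact Dvd.dvd.mul_right (hsm l hl k) _
    · exact dvd_zero _
  by_cases hm : (m : ℕ) < 12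
  · refine dvd_sum fun k _ => ?_
    split_ifs
    · exact Dvd.dvd.mul_left (hsm m hm k) _
    · exact dvd_zero _
  by_cases hl2 : 21 ≤ (l : ℕ)
  · refine dvd_sum fun k _ => ?_
    split_ifs with h
    · rw [hbg l hl2 k h, zero_mul]; exact dvd_zero _
    · exact dvd_zero _
  by_cases hm2 : 21 ≤ (m : ℕ)
  · refine dvd_sum fun k _ => ?_
    split_ifs with h
    · rw [hbg m hm2 k h, mul_zero]; exact dvd_zero _
    · exact dvd_zero _
  have hF : ∑ k : Fin g, (if (k : ℕ) < 21 then vv g k l * vv g k m else 0) =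
      ∑ k ∈ range 21, ((if (l : ℕ) = k then 1 else 0) - A k l) *
        ((if (m : ℕ) = k then 1 else 0) - A k m) := by
    have h1 : ∑ k : Fin g, (if (k : ℕ) < 21 then vv g k l * vv g k m else 0) =
        ∑ k ∈ range g, (if k < 21 then ((if (l : ℕ) = k then 1 else 0) - A k l) *
        ((if (m : ℕ) = k then 1 else 0) - A k m) else 0) := by
      rw [Finset.sum_range]
      refine sum_congr rfl fun k _ => ?_
      simp only [vv, hl, hm, if_false, one_mul, Fin.ext_iff]
    rw [h1, ← sum_filter]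
    refine sum_congr ?_ fun _ _ => rfl
    ext k
    simp only [mem_filter, mem_range]
    omega
  rw [hF]
  have hc := cols (l - 12) (by omega) (m - 12) (by omega)
  rw [show 12 + ((l : ℕ) - 12) = l by omega, show 12 + ((m : ℕ) - 12) = m by omega] at hc
  exact Int.dvd_of_emod_eq_zero hc

theorem p_inj {g : ℕ} (hg : 21 ≤ g) {k k' : Fin g} (h : p (vv g k) = p (vv g k')) : k = k' := by
  have hq : ∀ v : Fin g → ℤ, ∀ l : Fin g,
      ∑ i, ∑ j, T ℤ g l i * p v i j * T ℤ g l j = ((T ℤ g *ᵥ v) l) ^ 2 := by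
    intro v l
    rw [sq]
    unfold Matrix.mulVec dotProduct p
    rw [sum_mul_sum]
    refine sum_congr rfl fun i _ => sum_congr rfl fun j _ => ?_
    rw [Matrix.vecMulVec_apply]
    ring
  have h1 := hq (vv g k) k
  rw [h, hq (vv g k') k, T_vv (by omega), T_vv (by omega), if_pos rfl] at h1
  by_contra hne
  rw [if_neg hne] at h1
  norm_num at h1

theorem not_extends {g : ℕ} (hg : 21 ≤ g) : ¬ ExtendsToBasis (vv g) := by
  classical
  rintro ⟨ι, b, hb⟩
  choose f hf using hb
  have hfinj : Function.Injective f := by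
    intro k k' hkk
    apply p_inj hg
    rw [← hf k, ← hf k', hkk]
  -- half of the sum of the `p (v_k)`, `k < 21`
  choose N hN using fun l m => sum_even hg l m
  have hNs : (Matrix.of N)ᵀ = Matrix.of N := by
    ext l m
    rw [Matrix.transpose_apply, Matrix.of_apply, Matrix.of_apply]
    have h1 := hN l m
    have h2 := hN m l
    have h3 : ∑ k : Fin g, (if (k : ℕ) < 21 then vv g k l * vv g k m else 0) =
        ∑ k : Fin g, (if (k : ℕ) < 21 then vv g k m * vv g k l else 0) :=
      sum_congr rfl fun k _ => by rw [mul_comm]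
    omega
  obtain ⟨NN, hNN⟩ : ∃ NN : Sym2 g, ∀ l m, (NN : Matrix (Fin g) (Fin g) ℤ) l m = N l m :=
    ⟨⟨Matrix.of N, hNs⟩, fun _ _ => rfl⟩
  have hsum : (2 : ℤ) • NN = ∑ k : Fin g, if (k : ℕ) < 21 then b (f k) else 0 := by
    apply Subtype.ext
    rw [Submodule.coe_smul, Submodule.coe_sum]
    ext l m
    rw [Matrix.smul_apply, hNN, Matrix.sum_apply, smul_eq_mul, ← hN l m]
    refine sum_congr rfl fun k _ => ?_
    by_cases hk : (k : ℕ) < 21
    · rw [if_pos hk, if_pos hk, hf k]
      rfl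
    · rw [if_neg hk, if_neg hk]
      rfl
  have h0 := congrArg (fun M => b.repr M (f ⟨0, by omega⟩)) hsum
  simp only [map_smul, map_sum, Finsupp.smul_apply, Finsupp.finsetSum_apply] at h0
  have h1 : ∀ k : Fin g, (b.repr (if (k : ℕ) < 21 then b (f k) else 0)) (f ⟨0, by omega⟩) =
      if k = ⟨0, by omega⟩ then 1 else 0 := by
    intro k
    by_cases hk : (k : ℕ) < 21
    · rw [if_pos hk, Module.Basis.repr_self, Finsupp.single_apply]
      by_cases h : k = ⟨0, by omega⟩
      · rw [if_pos h, if_pos (by rw [h])]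
      · rw [if_neg h, if_neg (fun h' => h (hfinj h'))]
    · rw [if_neg hk, map_zero, Finsupp.zero_apply, if_neg]
      rintro rfl
      simp at hk
  rw [sum_congr rfl (fun k _ => h1 k)] at h0
  simp only [sum_ite_eq', mem_univ, if_true, smul_eq_mul] at h0
  omega

/-- For every `g ≥ 21` there are linearly independent `v_1, …, v_g ∈ ℤ^g` such that
`{p(v_1), …, p(v_g)}` generates a perfect cone, but the `p(v_i)` cannot be extended to a
`ℤ`-basis of `Sym²(ℤ^g)`. -/
theorem result : ∀ g : ℕ, 21 ≤ g → ∃ v : Fin g → Fin g → ℤ,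
    LinearIndependent ℤ v ∧ GeneratesPerfectCone v ∧ ¬ ExtendsToBasis v := by
  intro g hg
  refine ⟨vv g, indep hg, ⟨(T ℝ g)ᴴ * T ℝ g, ?_, min_eq hg⟩, not_extends hg⟩
  refine Matrix.PosDef.conjTranspose_mul_self _ ?_
  intro x y hxy
  have : T ℝ g *ᵥ (x - y) = 0 := by
    rw [Matrix.mulVec_sub]
    exact sub_eq_zero.2 hxy
  exact sub_eq_zero.1 (T_inj (by omega) _ this)

end Pool.Agent.Results.MP_aa1cdf_co.GolayLattice
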